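import Pool.Agent.W606.PS.Stm

/-!
Project PS: from a drawing to an abstract sphere.
-/

set_option autoImplicit false

open Set Relation Pool.Agent.W606.PS

namespace Pool.Agent.W986.PS.Top

theorem con_image {X Y : Type} {G : SimpleGraph X} {H : SimpleGraph Y} (φ : X → Y) {S : Set X}
    (hS : Con G S) (hadj : ∀ p ∈ S, ∀ q ∈ S, G.Adj p q → H.Adj (φ p) (φ q)) :
    Con H (φ '' S) := by
  refine ⟨hS.1.image φ, ?_⟩
  rintro _ ⟨u, hu, rfl⟩ _ ⟨v, hv, rfl⟩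
  have p := hS.2 u hu v hv
  clear hv
  induction p with
  | refl => exact ReflTransGen.refl
  | @tail b c _ h ih =>
    exact ih.tail ⟨hadj b h.2.1 c h.2.2 h.1, mem_image_of_mem φ h.2.1, mem_image_of_mem φ h.2.2⟩

theorem lat_adj_add (a p q : ℤ × ℤ) : W606.PS.Lat.Adj (p + a) (q + a) ↔ W606.PS.Lat.Adj p q := by
  obtain ⟨a1, a2⟩ := a
  obtain ⟨p1, p2⟩ := p
  obtain ⟨q1, q2⟩ := q
  simp only [W606.PS.Lat, SimpleGraph.fromRel_adj, ne_eq, Prod.mk_add_mk, Prod.mk.injEq]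
  omega

/-- transfer of a model along a map which is an induced embedding on the sets used. -/
theorem model_image {A X Y : Type} {G : SimpleGraph A} {L : SimpleGraph X} {H : SimpleGraph Y}
    {Cv : A → Set X} {Ce : Sym2 A → Set X} (hM : Model G L Cv Ce) (φ : X → Y) (S : Set X)
    (hSv : ∀ u, Cv u ⊆ S) (hSe : ∀ e, Ce e ⊆ S)
    (hinj : ∀ p ∈ S, ∀ q ∈ S, φ p = φ q → p = q)
    (hadj : ∀ p ∈ S, ∀ q ∈ S, (H.Adj (φ p) (φ q) ↔ L.Adj p q)) :
    Model G H (fun u => φ '' Cv u) (fun e => φ '' Ce e) := by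
  obtain ⟨m1, m2, m3, m4, m5, m6⟩ := hM
  have hD : ∀ P Q : Set X, P ⊆ S → Q ⊆ S → Disjoint P Q ∧ ¬ Tch L P Q →
      Disjoint (φ '' P) (φ '' Q) ∧ ¬ Tch H (φ '' P) (φ '' Q) := by
    rintro P Q hP hQ ⟨h1, h2⟩
    constructor
    · rw [Set.disjoint_left]
      rintro _ ⟨p, hp, rfl⟩ ⟨q, hq, hqe⟩
      have := hinj q (hQ hq) p (hP hp) hqe
      subst this
      exact Set.disjoint_left.1 h1 hp hq
    · rintro ⟨_, ⟨p, hp, rfl⟩, _, ⟨q, hq, rfl⟩, h⟩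
      exact h2 ⟨p, hp, q, hq, (hadj p (hP hp) q (hQ hq)).1 h⟩
  refine ⟨?_, ?_, ?_, ?_, ?_, ?_⟩
  · intro u
    exact con_image φ (m1 u) (fun p hp q hq h => (hadj p (hSv u hp) q (hSv u hq)).2 h)
  · intro e he
    exact con_image φ (m2 e he) (fun p hp q hq h => (hadj p (hSe e hp) q (hSe e hq)).2 h)
  · intro u v huv
    exact hD _ _ (hSv u) (hSv v) (m3 u v huv)
  · intro e he u hu
    obtain ⟨p, hp1, hp2⟩ := m4 e he u hu
    exact ⟨φ p, ⟨p, hp1, rfl⟩, ⟨p, hp2, rfl⟩⟩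
  · intro e he u hu
    exact hD _ _ (hSe e) (hSv u) (m5 e he u hu)
  · intro e he e' he' hee
    exact hD _ _ (hSe e) (hSe e') (m6 e he e' he' hee)

theorem exists_box (S : Set (ℤ × ℤ)) (hS : S.Finite) :
    ∃ B : ℕ, ∀ p ∈ S, -(B : ℤ) ≤ p.1 ∧ p.1 ≤ B ∧ -(B : ℤ) ≤ p.2 ∧ p.2 ≤ B := by
  induction S, hS using Set.Finite.induction_on with
  | empty => exact ⟨0, by simp⟩
  | @insert a s _ _ ih =>
    obtain ⟨B, hB⟩ := ih
    refine ⟨B + a.1.natAbs + a.2.natAbs, ?_⟩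
    intro p hp
    rcases hp with hp | hp
    · subst hp
      simp only [Nat.cast_add]
      omega
    · have := hB p hp
      simp only [Nat.cast_add]
      omega

theorem main (h1 : S_ANA) (h2 : S_GRID) (h3 : S_PART) (h4 : S_QUOT) : S_TOP := by
  intro A _ G₀ hG₀ hD
  have : Nonempty A := by
    obtain ⟨a, _⟩ := hG₀.1
    exact ⟨a⟩
  obtain ⟨Cv, Ce, hM, hfv, hfe⟩ := h1 A G₀ hD
  obtain ⟨B, hB⟩ := exists_box ((⋃ u, Cv u) ∪ (⋃ e, Ce e))
    ((Set.finite_iUnion hfv).union (Set.finite_iUnion hfe))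
  obtain ⟨X, E, T, iX, iE, iT, K, j, hK, hj⟩ := h2 (2 * B)
  have hj' : ∀ p ∈ ((⋃ u, Cv u) ∪ (⋃ e, Ce e)), ∀ q ∈ ((⋃ u, Cv u) ∪ (⋃ e, Ce e)),
      (j (p + ((B : ℤ), (B : ℤ))) = j (q + ((B : ℤ), (B : ℤ))) → p = q) ∧
      (K.gr.Adj (j (p + ((B : ℤ), (B : ℤ)))) (j (q + ((B : ℤ), (B : ℤ)))) ↔ W606.PS.Lat.Adj p q) := by
    intro p hp q hq
    have hp' := hB p hp
    have hq' := hB q hq
    have := hj (p + ((B : ℤ), (B : ℤ))) (q + ((B : ℤ), (B : ℤ)))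
      (by simp only [Prod.fst_add]; omega) (by simp only [Prod.fst_add]; push_cast; omega)
      (by simp only [Prod.snd_add]; omega) (by simp only [Prod.snd_add]; push_cast; omega)
      (by simp only [Prod.fst_add]; omega) (by simp only [Prod.fst_add]; push_cast; omega)
      (by simp only [Prod.snd_add]; omega) (by simp only [Prod.snd_add]; push_cast; omega)
    refine ⟨fun h => add_right_cancel (this.1 h), ?_⟩
    rw [this.2, lat_adj_add]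
  have hM' := model_image hM (fun p => j (p + ((B : ℤ), (B : ℤ)))) (H := K.gr)
    ((⋃ u, Cv u) ∪ (⋃ e, Ce e))
    (fun u => (Set.subset_iUnion Cv u).trans Set.subset_union_left)
    (fun e => (Set.subset_iUnion Ce e).trans Set.subset_union_right)
    (fun p hp q hq => (hj' p hp q hq).1) (fun p hp q hq => (hj' p hp q hq).2)
  obtain ⟨W, iW, G, f, hf1, hf2, hf3, hf4⟩ := h3 A X G₀ K.gr _ _ hK.conn hM'
  exact ⟨W, T, iW, G, fun t i => f (K.tv t i), h4 X E T K hK (A ⊕ W) G f hf1 hf2 hf3, hf4⟩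

theorem ana (h1 : S_ANA1) (h2 : S_ANA2) : S_ANA := by
  intro A _ G hD
  obtain ⟨Kv, Ke, hK⟩ := h1 A G hD
  exact h2 A G Kv Ke hK

end Pool.Agent.W986.PS.Top
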